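import Pool.Agent.N662.FP.Stm2

/-!
# FM/CORE2: the one-point lemma with the threshold `1/e` (helper398)
-/

set_option autoImplicit false
open MeasureTheory ProbabilityTheory Filter Set
open scoped ENNReal Pointwise Topology

namespace Pool.Agent.N398.FM.CORE2

open Pool.Agent.N662.FP

theorem t_CORE2 (h1 : S_LINE) (h2 : S_LAY2) : S_CORE2 := by
  intro Ω _ _ T hT hI m r d hr hd hlc hm h8
  obtain ⟨G, hG⟩ : ∃ G : ℝ → ℝ, G = fun t => (volume : Measure Ω).real {ω | t ≤ T ω} := ⟨_, rfl⟩
  have hG' : ∀ t, (volume : Measure Ω).real {ω | t ≤ T ω} = G t := fun t => by rw [hG]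
  simp only [hG'] at hlc h8 ⊢
  have hG0 : ∀ t, 0 ≤ G t := fun t => by rw [← hG']; exact measureReal_nonneg
  have hG1 : ∀ t, G t ≤ 1 := fun t => by rw [← hG']; exact measureReal_le_one
  have hanti : Antitone G := by
    intro s t hst
    rw [← hG', ← hG']
    exact measureReal_mono (fun ω hω => le_trans hst hω) (measure_ne_top _ _)
  have hlim : Tendsto G atBot (𝓝 1) := by
    have h := tendsto_measure_iUnion_atBot (μ := (volume : Measure Ω))
      (s := fun t : ℝ => {ω | t ≤ T ω}) (fun s t hst ω hω => le_trans hst hω)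
    have hU : (⋃ t : ℝ, {ω | t ≤ T ω}) = univ := by
      rw [eq_univ_iff_forall]
      intro ω
      exact mem_iUnion.2 ⟨T ω, (le_refl (T ω) : T ω ≤ T ω)⟩
    rw [hU, measure_univ] at h
    have h3 := (ENNReal.tendsto_toReal ENNReal.one_ne_top).comp h
    rw [ENNReal.toReal_one] at h3
    rw [hG]
    exact h3
  obtain ⟨b, hb⟩ : ∃ b, b = m + r := ⟨_, rfl⟩
  rw [← hb] at h8 ⊢
  have hg1 : G b < 1 := h8.trans_lt (by rw [Real.exp_lt_one_iff]; linarith)
  have hmax : ∀ c : ℝ, Integrable (fun ω => max (T ω - c) 0) (volume : Measure Ω) := fun c =>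
    (hI.sub (integrable_const c)).pos_part
  have first : ∀ u : ℝ, 0 ≤ u → G (b + u) ≤ Real.exp (-(1 + d + d * u / r)) := by
    intro u hu
    rcases hu.eq_or_lt with rfl | hu
    · rw [add_zero, mul_zero, zero_div, add_zero]
      exact h8
    rcases (hG0 (b + u)).eq_or_lt with h0 | h0
    · rw [← h0]
      exact (Real.exp_pos _).le
    have hg0 : 0 < G b := h0.trans_le (hanti (by linarith))
    obtain ⟨lam, hlam, hline⟩ := h1 G hG0 hG1 hanti hlc hlim b u hu hg1 h0
    obtain ⟨L, hL⟩ : ∃ L, L = -Real.log (G b) := ⟨_, rfl⟩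
    have hgL : G b = Real.exp (-L) := by rw [hL, neg_neg, Real.exp_log hg0]
    have hLd : 1 + d ≤ L := by
      rw [hgL, Real.exp_le_exp] at h8
      linarith
    obtain ⟨c, hc⟩ : ∃ c, c = b - L / lam := ⟨_, rfl⟩
    have hcL : lam * (b - c) = L := by
      rw [hc]
      field_simp
      ring
    have hlay := h2 Ω T hT hI c 1 lam hlam (fun x _ => by
      rw [hG', one_mul]
      refine (hline x).trans (le_of_eq ?_)
      rw [hgL, ← Real.exp_add]
      congr 1
      rw [← hcL]
      ring)
    have hmc : m ≤ c + 1 / lam := by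
      have k1 : ∫ ω, T ω ∂(volume : Measure Ω) ≤
          ∫ ω, (c + max (T ω - c) 0) ∂(volume : Measure Ω) := by
        refine integral_mono hI ((integrable_const c).add (hmax c)) fun ω => ?_
        show T ω ≤ c + max (T ω - c) 0
        have e1 := le_max_left (T ω - c) 0
        linarith
      rw [integral_add (integrable_const c) (hmax c), integral_const, probReal_univ,
        one_smul] at k1
      linarith
    have hdl : d ≤ r * lam := by
      have k1 : m * lam ≤ (c + 1 / lam) * lam := mul_le_mul_of_nonneg_right hmc hlam.le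
      have k2 : (c + 1 / lam) * lam = lam * c + 1 := by
        field_simp
      have k3 : lam * c = lam * b - L := by linarith
      have k4 : lam * b = lam * m + r * lam := by
        rw [hb]
        ring
      linarith
    refine (hline (b + u)).trans ?_
    rw [hgL, ← Real.exp_add, Real.exp_le_exp]
    have k5 : d * u / r ≤ lam * u := by
      rw [div_le_iff₀ hr]
      have := mul_le_mul_of_nonneg_right hdl hu.le
      linarith
    have k6 : lam * (b + u - b) = lam * u := by ring
    linarith
  refine ⟨first, ?_⟩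
  have hdr : 0 < d / r := div_pos hd hr
  have hlay := h2 Ω T hT hI b (Real.exp (-(1 + d))) (d / r) hdr (fun x hx => by
    rw [hG', ← Real.exp_add]
    have k1 := first (x - b) (by linarith)
    rw [add_sub_cancel] at k1
    refine k1.trans (le_of_eq ?_)
    congr 1
    ring)
  have hlay2 : ∫ ω, max (T ω - b) 0 ∂(volume : Measure Ω) ≤ 1 / d * r := by
    refine hlay.trans ?_
    rw [div_le_iff₀ hdr]
    have k1 : 1 / d * r * (d / r) = 1 := by field_simp
    rw [k1, Real.exp_le_one_iff]
    linarith
  have hM1 : ∫ ω, max (T ω - m) 0 ∂(volume : Measure Ω) ≤ r + 1 / d * r := by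
    have k1 : ∫ ω, max (T ω - m) 0 ∂(volume : Measure Ω) ≤
        ∫ ω, (r + max (T ω - b) 0) ∂(volume : Measure Ω) := by
      refine integral_mono (hmax m) ((integrable_const r).add (hmax b)) fun ω => ?_
      show max (T ω - m) 0 ≤ r + max (T ω - b) 0
      have e1 := le_max_left (T ω - b) 0
      have e2 := le_max_right (T ω - b) 0
      refine max_le ?_ ?_ <;> linarith
    rw [integral_add (integrable_const r) (hmax b), integral_const, probReal_univ, one_smul] at k1
    linarith
  have k1 : ∫ ω, |T ω - m| ∂(volume : Measure Ω) =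
      ∫ ω, (2 * max (T ω - m) 0 - (T ω - m)) ∂(volume : Measure Ω) := by
    congr 1
    funext ω
    rcases le_total (T ω) m with h | h
    · rw [max_eq_right (by linarith), abs_of_nonpos (by linarith)]
      ring
    · rw [max_eq_left (by linarith), abs_of_nonneg (by linarith)]
      ring
  have i4 : Integrable (fun ω => T ω - m) (volume : Measure Ω) := hI.sub (integrable_const m)
  rw [k1, integral_sub ((hmax m).const_mul 2) i4, integral_const_mul,
    integral_sub hI (integrable_const m), integral_const, probReal_univ, one_smul]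
  linarith

end Pool.Agent.N398.FM.CORE2
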